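import Mathlib

/-! Module FIN, real part. -/

set_option autoImplicit false

namespace Pool.Agent.Helper10.Qc

theorem fin_lin (s a y g : ℝ) (hy : |y| ≤ s) (hg : |g| ≤ a) : -(s * a) ≤ g * y := by
  have h1 : |g * y| ≤ a * s := by
    rw [abs_mul]
    exact mul_le_mul hg hy (abs_nonneg _) (le_trans (abs_nonneg _) hg)
  have h2 := (abs_le.1 h1).1
  linarith

theorem fin_sq (s y : ℝ) (hy : |y| ≤ s) : y * y ≤ s * s := by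
  rw [← abs_mul_abs_self y]
  exact mul_self_le_mul_self (abs_nonneg _) hy

theorem fin_tri (s r B y x D : ℝ) (hy : |y| ≤ s) (hx : |x| ≤ r) (hD : |D| ≤ B) :
    -(s * (r * B)) ≤ y * (x * D) ∧ y * (x * D) ≤ s * (r * B) := by
  rw [← abs_le, abs_mul, abs_mul]
  exact mul_le_mul hy (mul_le_mul hx hD (abs_nonneg _) (le_trans (abs_nonneg _) hx))
    (by positivity) (le_trans (abs_nonneg _) hy)

/-- one component of the bilinear term -/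
theorem fin_bil (s y r0 r1 r2 r3 x0 x1 x2 x3 B0 B1 B2 B3 D0 D1 D2 D3 : ℝ) (hy : |y| ≤ s)
    (hx0 : |x0| ≤ r0) (hx1 : |x1| ≤ r1) (hx2 : |x2| ≤ r2) (hx3 : |x3| ≤ r3)
    (h0 : |D0| ≤ B0) (h1 : |D1| ≤ B1) (h2 : |D2| ≤ B2) (h3 : |D3| ≤ B3) :
    y * (x0 * D0 + x1 * D1 + x2 * D2 + x3 * D3) ≤
      s * (r0 * B0 + r1 * B1 + r2 * B2 + r3 * B3) := by
  have e0 := (fin_tri s r0 B0 y x0 D0 hy hx0 h0).2
  have e1 := (fin_tri s r1 B1 y x1 D1 hy hx1 h1).2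
  have e2 := (fin_tri s r2 B2 y x2 D2 hy hx2 h2).2
  have e3 := (fin_tri s r3 B3 y x3 D3 hy hx3 h3).2
  calc y * (x0 * D0 + x1 * D1 + x2 * D2 + x3 * D3) =
        y * (x0 * D0) + y * (x1 * D1) + y * (x2 * D2) + y * (x3 * D3) := by ring
    _ ≤ s * (r0 * B0) + s * (r1 * B1) + s * (r2 * B2) + s * (r3 * B3) := by
        exact add_le_add (add_le_add (add_le_add e0 e1) e2) e3
    _ = _ := by ring

/-- the polynomial -/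
def finG (K b ai A C kk E0 E1 E2 E3 U0 U1 U2 U3 D0 D1 D2 D3 k0 k1 k2 k3 q0 q1 q2 q3 : ℝ) : ℝ :=
  K * (2541748224 - 1048576 * U0 + 65536 * (E0 + E1 + E2 + E3) -
      256 * (E0 * E0 + E1 * E1 + E2 * E2 + E3 * E3)) + 1073741824 * (b - ai) -
    (256 * A * (U0 * U0 + U1 * U1 + U2 * U2 + U3 * U3) +
      C * (E0 * E0 + E1 * E1 + E2 * E2 + E3 * E3) + kk +
      32 * (U0 * (E0 * D0 + E1 * D1 + E2 * D2 + E3 * D3) +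
        U1 * (-(E0 * D1) + E1 * D0 - E2 * D3 + E3 * D2) +
        U2 * (-(E0 * D2) + E2 * D0 - E3 * D1 + E1 * D3) +
        U3 * (-(E0 * D3) + E3 * D0 - E1 * D2 + E2 * D1)) +
      32 * (U0 * k0 + U1 * k1 + U2 * k2 + U3 * k3) +
      2 * (E0 * q0 + E1 * q1 + E2 * q2 + E3 * q3))

theorem fin_core (K b ai A C kk E0 E1 E2 E3 U0 U1 U2 U3 r0 r1 r2 r3 s0 s1 s2 s3 D0 D1 D2 D3
    k0 k1 k2 k3 q0 q1 q2 q3 x0 x1 x2 x3 y0 y1 y2 y3 a0 a1 a2 a3 c0 c1 c2 c3 B0 B1 B2 B3 : ℝ)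
    (hA : 0 ≤ A) (hCK : 0 ≤ C + 256 * K)
    (hx0 : |x0| ≤ r0) (hx1 : |x1| ≤ r1) (hx2 : |x2| ≤ r2) (hx3 : |x3| ≤ r3)
    (hy0 : |y0| ≤ s0) (hy1 : |y1| ≤ s1) (hy2 : |y2| ≤ s2) (hy3 : |y3| ≤ s3)
    (hB0 : |D0| ≤ B0) (hB1 : |D1| ≤ B1) (hB2 : |D2| ≤ B2) (hB3 : |D3| ≤ B3)
    (ha0 : |-(1048576 * K) - 512 * A * U0 - 32 * (E0 * D0 + E1 * D1 + E2 * D2 + E3 * D3) -
      32 * k0| ≤ a0)
    (ha1 : |-(512 * A * U1) - 32 * (-(E0 * D1) + E1 * D0 - E2 * D3 + E3 * D2) - 32 * k1| ≤ a1)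
    (ha2 : |-(512 * A * U2) - 32 * (-(E0 * D2) + E2 * D0 - E3 * D1 + E1 * D3) - 32 * k2| ≤ a2)
    (ha3 : |-(512 * A * U3) - 32 * (-(E0 * D3) + E3 * D0 - E1 * D2 + E2 * D1) - 32 * k3| ≤ a3)
    (hc0 : |65536 * K - (512 * K + 2 * C) * E0 -
      32 * (U0 * D0 - U1 * D1 - U2 * D2 - U3 * D3) - 2 * q0| ≤ c0)
    (hc1 : |65536 * K - (512 * K + 2 * C) * E1 -
      32 * (U0 * D1 + U1 * D0 + U2 * D3 - U3 * D2) - 2 * q1| ≤ c1)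
    (hc2 : |65536 * K - (512 * K + 2 * C) * E2 -
      32 * (U0 * D2 - U1 * D3 + U2 * D0 + U3 * D1) - 2 * q2| ≤ c2)
    (hc3 : |65536 * K - (512 * K + 2 * C) * E3 -
      32 * (U0 * D3 + U1 * D2 - U2 * D1 + U3 * D0) - 2 * q3| ≤ c3)
    (hchk : s0 * a0 + s1 * a1 + s2 * a2 + s3 * a3 + (r0 * c0 + r1 * c1 + r2 * c2 + r3 * c3) +
      (256 * A * (s0 * s0 + s1 * s1 + s2 * s2 + s3 * s3) +
        (C + 256 * K) * (r0 * r0 + r1 * r1 + r2 * r2 + r3 * r3)) +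
      32 * (s0 * (r0 * B0 + r1 * B1 + r2 * B2 + r3 * B3) +
        s1 * (r0 * B1 + r1 * B0 + r2 * B3 + r3 * B2) +
        s2 * (r0 * B2 + r1 * B3 + r2 * B0 + r3 * B1) +
        s3 * (r0 * B3 + r1 * B2 + r2 * B1 + r3 * B0)) ≤
      finG K b ai A C kk E0 E1 E2 E3 U0 U1 U2 U3 D0 D1 D2 D3 k0 k1 k2 k3 q0 q1 q2 q3) :
    0 ≤ finG K b ai A C kk (E0 + x0) (E1 + x1) (E2 + x2) (E3 + x3) (U0 + y0) (U1 + y1) (U2 + y2)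
      (U3 + y3) D0 D1 D2 D3 k0 k1 k2 k3 q0 q1 q2 q3 := by
  obtain ⟨g0, hg0⟩ : ∃ g0, g0 = -(1048576 * K) - 512 * A * U0 -
    32 * (E0 * D0 + E1 * D1 + E2 * D2 + E3 * D3) - 32 * k0 := ⟨_, rfl⟩
  obtain ⟨g1, hg1⟩ : ∃ g1, g1 = -(512 * A * U1) -
    32 * (-(E0 * D1) + E1 * D0 - E2 * D3 + E3 * D2) - 32 * k1 := ⟨_, rfl⟩
  obtain ⟨g2, hg2⟩ : ∃ g2, g2 = -(512 * A * U2) -
    32 * (-(E0 * D2) + E2 * D0 - E3 * D1 + E1 * D3) - 32 * k2 := ⟨_, rfl⟩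
  obtain ⟨g3, hg3⟩ : ∃ g3, g3 = -(512 * A * U3) -
    32 * (-(E0 * D3) + E3 * D0 - E1 * D2 + E2 * D1) - 32 * k3 := ⟨_, rfl⟩
  obtain ⟨f0, hf0⟩ : ∃ f0, f0 = 65536 * K - (512 * K + 2 * C) * E0 -
      32 * (U0 * D0 - U1 * D1 - U2 * D2 - U3 * D3) - 2 * q0 := ⟨_, rfl⟩
  obtain ⟨f1, hf1⟩ : ∃ f1, f1 = 65536 * K - (512 * K + 2 * C) * E1 -
      32 * (U0 * D1 + U1 * D0 + U2 * D3 - U3 * D2) - 2 * q1 := ⟨_, rfl⟩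
  obtain ⟨f2, hf2⟩ : ∃ f2, f2 = 65536 * K - (512 * K + 2 * C) * E2 -
      32 * (U0 * D2 - U1 * D3 + U2 * D0 + U3 * D1) - 2 * q2 := ⟨_, rfl⟩
  obtain ⟨f3, hf3⟩ : ∃ f3, f3 = 65536 * K - (512 * K + 2 * C) * E3 -
      32 * (U0 * D3 + U1 * D2 - U2 * D1 + U3 * D0) - 2 * q3 := ⟨_, rfl⟩
  rw [← hg0] at ha0
  rw [← hg1] at ha1
  rw [← hg2] at ha2
  rw [← hg3] at ha3
  rw [← hf0] at hc0
  rw [← hf1] at hc1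
  rw [← hf2] at hc2
  rw [← hf3] at hc3
  have key : finG K b ai A C kk (E0 + x0) (E1 + x1) (E2 + x2) (E3 + x3) (U0 + y0) (U1 + y1)
      (U2 + y2) (U3 + y3) D0 D1 D2 D3 k0 k1 k2 k3 q0 q1 q2 q3 =
      finG K b ai A C kk E0 E1 E2 E3 U0 U1 U2 U3 D0 D1 D2 D3 k0 k1 k2 k3 q0 q1 q2 q3 +
      (g0 * y0 + g1 * y1 + g2 * y2 + g3 * y3) + (f0 * x0 + f1 * x1 + f2 * x2 + f3 * x3) -
      256 * A * (y0 * y0 + y1 * y1 + y2 * y2 + y3 * y3) -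
      (C + 256 * K) * (x0 * x0 + x1 * x1 + x2 * x2 + x3 * x3) -
      32 * (y0 * (x0 * D0 + x1 * D1 + x2 * D2 + x3 * D3) +
        y1 * (x0 * (-D1) + x1 * D0 + x2 * (-D3) + x3 * D2) +
        y2 * (x0 * (-D2) + x1 * D3 + x2 * D0 + x3 * (-D1)) +
        y3 * (x0 * (-D3) + x1 * (-D2) + x2 * D1 + x3 * D0)) := by
    rw [hg0, hg1, hg2, hg3, hf0, hf1, hf2, hf3]
    unfold finG
    ring
  rw [key]
  have p0 := fin_lin s0 a0 y0 g0 hy0 ha0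
  have p1 := fin_lin s1 a1 y1 g1 hy1 ha1
  have p2 := fin_lin s2 a2 y2 g2 hy2 ha2
  have p3 := fin_lin s3 a3 y3 g3 hy3 ha3
  have t0 := fin_lin r0 c0 x0 f0 hx0 hc0
  have t1 := fin_lin r1 c1 x1 f1 hx1 hc1
  have t2 := fin_lin r2 c2 x2 f2 hx2 hc2
  have t3 := fin_lin r3 c3 x3 f3 hx3 hc3
  have v : 256 * A * (y0 * y0 + y1 * y1 + y2 * y2 + y3 * y3) ≤
      256 * A * (s0 * s0 + s1 * s1 + s2 * s2 + s3 * s3) := by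
    refine mul_le_mul_of_nonneg_left ?_ (by positivity)
    exact add_le_add (add_le_add (add_le_add (fin_sq _ _ hy0) (fin_sq _ _ hy1))
      (fin_sq _ _ hy2)) (fin_sq _ _ hy3)
  have w : (C + 256 * K) * (x0 * x0 + x1 * x1 + x2 * x2 + x3 * x3) ≤
      (C + 256 * K) * (r0 * r0 + r1 * r1 + r2 * r2 + r3 * r3) := by
    refine mul_le_mul_of_nonneg_left ?_ hCK
    exact add_le_add (add_le_add (add_le_add (fin_sq _ _ hx0) (fin_sq _ _ hx1))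
      (fin_sq _ _ hx2)) (fin_sq _ _ hx3)
  have n1 : |-D1| ≤ B1 := by rw [abs_neg]; exact hB1
  have n2 : |-D2| ≤ B2 := by rw [abs_neg]; exact hB2
  have n3 : |-D3| ≤ B3 := by rw [abs_neg]; exact hB3
  have z0 := fin_bil s0 y0 r0 r1 r2 r3 x0 x1 x2 x3 B0 B1 B2 B3 D0 D1 D2 D3 hy0 hx0 hx1 hx2 hx3
    hB0 hB1 hB2 hB3
  have z1 := fin_bil s1 y1 r0 r1 r2 r3 x0 x1 x2 x3 B1 B0 B3 B2 (-D1) D0 (-D3) D2 hy1 hx0 hx1 hx2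
    hx3 n1 hB0 n3 hB2
  have z2 := fin_bil s2 y2 r0 r1 r2 r3 x0 x1 x2 x3 B2 B3 B0 B1 (-D2) D3 D0 (-D1) hy2 hx0 hx1 hx2
    hx3 n2 hB3 hB0 n1
  have z3 := fin_bil s3 y3 r0 r1 r2 r3 x0 x1 x2 x3 B3 B2 B1 B0 (-D3) (-D2) D1 D0 hy3 hx0 hx1 hx2
    hx3 n3 n2 hB1 hB0
  obtain ⟨G, hG⟩ : ∃ G, G = finG K b ai A C kk E0 E1 E2 E3 U0 U1 U2 U3 D0 D1 D2 D3 k0 k1 k2 k3
    q0 q1 q2 q3 := ⟨_, rfl⟩
  rw [← hG] at hchk ⊢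
  obtain ⟨v1, hv1⟩ : ∃ v1, v1 = 256 * A * (y0 * y0 + y1 * y1 + y2 * y2 + y3 * y3) := ⟨_, rfl⟩
  obtain ⟨v2, hv2⟩ : ∃ v2, v2 = 256 * A * (s0 * s0 + s1 * s1 + s2 * s2 + s3 * s3) := ⟨_, rfl⟩
  obtain ⟨w1, hw1⟩ : ∃ w1, w1 = (C + 256 * K) * (x0 * x0 + x1 * x1 + x2 * x2 + x3 * x3) :=
    ⟨_, rfl⟩
  obtain ⟨w2, hw2⟩ : ∃ w2, w2 = (C + 256 * K) * (r0 * r0 + r1 * r1 + r2 * r2 + r3 * r3) :=
    ⟨_, rfl⟩
  rw [← hv1, ← hv2] at v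
  rw [← hw1, ← hw2] at w
  rw [← hv2, ← hw2] at hchk
  rw [← hv1, ← hw1]
  clear key hG hv1 hv2 hw1 hw2 hg0 hg1 hg2 hg3 hf0 hf1 hf2 hf3 ha0 ha1 ha2 ha3 hc0 hc1 hc2 hc3
  linarith

end Pool.Agent.Helper10.Qc
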