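import Pool.Agent.Helper10.Qc.Stmts
import Pool.Agent.Helper24.Qc.FINa

/-! Module FIN: the final comparison. -/

set_option autoImplicit false

namespace Pool.Agent.Helper10.Qc

theorem fin_df (p n : ℕ) : ((df p n : ℕ) : ℝ) = |(p : ℝ) - n| := by
  have h0 : df p n = (p - n) + (n - p) := rfl
  rw [h0]
  rcases le_total p n with h | h
  · rw [Nat.sub_eq_zero_of_le h, zero_add, Nat.cast_sub h, abs_sub_comm, abs_of_nonneg]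
    have : (p : ℝ) ≤ n := by exact_mod_cast h
    linarith
  · rw [Nat.sub_eq_zero_of_le h, add_zero, Nat.cast_sub h, abs_of_nonneg]
    have : (n : ℝ) ≤ p := by exact_mod_cast h
    linarith

theorem fin_cp (x0 x1 x2 x3 y0 y1 y2 y3 p : ℕ) :
    ((cp0 x0 x1 x2 x3 y0 y1 y2 y3 0 p : ℕ) : ℝ) = (cn0 x0 x1 x2 x3 y0 y1 y2 y3 0 p : ℕ) +
      ((x0 : ℝ) * (y0 - p) + x1 * (y1 - p) + x2 * (y2 - p) + x3 * (y3 - p)) ∧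
    ((cp1 x0 x1 x2 x3 y0 y1 y2 y3 0 p : ℕ) : ℝ) = (cn1 x0 x1 x2 x3 y0 y1 y2 y3 0 p : ℕ) +
      (-((x0 : ℝ) * (y1 - p)) + x1 * (y0 - p) - x2 * (y3 - p) + x3 * (y2 - p)) ∧
    ((cp2 x0 x1 x2 x3 y0 y1 y2 y3 0 p : ℕ) : ℝ) = (cn2 x0 x1 x2 x3 y0 y1 y2 y3 0 p : ℕ) +
      (-((x0 : ℝ) * (y2 - p)) + x2 * (y0 - p) - x3 * (y1 - p) + x1 * (y3 - p)) ∧
    ((cp3 x0 x1 x2 x3 y0 y1 y2 y3 0 p : ℕ) : ℝ) = (cn3 x0 x1 x2 x3 y0 y1 y2 y3 0 p : ℕ) +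
      (-((x0 : ℝ) * (y3 - p)) + x3 * (y0 - p) - x1 * (y2 - p) + x2 * (y1 - p)) := by
  refine ⟨?_, ?_, ?_, ?_⟩
  · simp only [cp0, cn0, s4, qp, qn, Nat.add_eq, Nat.mul_eq]
    push_cast
    ring
  · simp only [cp1, cn1, s4, qp, qn, Nat.add_eq, Nat.mul_eq]
    push_cast
    ring
  · simp only [cp2, cn2, s4, qp, qn, Nat.add_eq, Nat.mul_eq]
    push_cast
    ring
  · simp only [cp3, cn3, s4, qp, qn, Nat.add_eq, Nat.mul_eq]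
    push_cast
    ring

theorem fin_mp (x0 x1 x2 x3 y0 y1 y2 y3 p : ℕ) :
    ((mp0 x0 x1 x2 x3 y0 y1 y2 y3 0 p : ℕ) : ℝ) = (mn0 x0 x1 x2 x3 y0 y1 y2 y3 0 p : ℕ) +
      ((x0 : ℝ) * (y0 - p) - x1 * (y1 - p) - x2 * (y2 - p) - x3 * (y3 - p)) ∧
    ((mp1 x0 x1 x2 x3 y0 y1 y2 y3 0 p : ℕ) : ℝ) = (mn1 x0 x1 x2 x3 y0 y1 y2 y3 0 p : ℕ) +
      ((x0 : ℝ) * (y1 - p) + x1 * (y0 - p) + x2 * (y3 - p) - x3 * (y2 - p)) ∧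
    ((mp2 x0 x1 x2 x3 y0 y1 y2 y3 0 p : ℕ) : ℝ) = (mn2 x0 x1 x2 x3 y0 y1 y2 y3 0 p : ℕ) +
      ((x0 : ℝ) * (y2 - p) - x1 * (y3 - p) + x2 * (y0 - p) + x3 * (y1 - p)) ∧
    ((mp3 x0 x1 x2 x3 y0 y1 y2 y3 0 p : ℕ) : ℝ) = (mn3 x0 x1 x2 x3 y0 y1 y2 y3 0 p : ℕ) +
      ((x0 : ℝ) * (y3 - p) + x1 * (y2 - p) - x2 * (y1 - p) + x3 * (y0 - p)) := by
  refine ⟨?_, ?_, ?_, ?_⟩
  · simp only [mp0, mn0, s4, qp, qn, Nat.add_eq, Nat.mul_eq]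
    push_cast
    ring
  · simp only [mp1, mn1, s4, qp, qn, Nat.add_eq, Nat.mul_eq]
    push_cast
    ring
  · simp only [mp2, mn2, s4, qp, qn, Nat.add_eq, Nat.mul_eq]
    push_cast
    ring
  · simp only [mp3, mn3, s4, qp, qn, Nat.add_eq, Nat.mul_eq]
    push_cast
    ring

theorem fin_real5 (K b ai A C kk e0 e1 e2 e3 u0 u1 u2 u3 r0 r1 r2 r3 s0 s1 s2 s3
    k0 k1 k2 k3 q0 q1 q2 q3 oK oQ tp0 tp1 tp2 tp3 tn0 tn1 tn2 tn3 wp0 wp1 wp2 wp3 wn0 wn1 wn2 wn3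
    B0 B1 B2 B3 : ℕ)
    (h : fin5 K b ai A C kk e0 e1 e2 e3 u0 u1 u2 u3 r0 r1 r2 r3 s0 s1 s2 s3
      k0 k1 k2 k3 q0 q1 q2 q3 oK oQ tp0 tp1 tp2 tp3 tn0 tn1 tn2 tn3 wp0 wp1 wp2 wp3
      wn0 wn1 wn2 wn3 B0 B1 B2 B3 = true) :
    (s0 : ℝ) * |32 * ((tn0 : ℝ) + oK) - (1048576 * K + 512 * A * u0 + 32 * (tp0 + k0))| +
      s1 * |32 * ((tn1 : ℝ) + oK) - (512 * A * u1 + 32 * (tp1 + k1))| +
      s2 * |32 * ((tn2 : ℝ) + oK) - (512 * A * u2 + 32 * (tp2 + k2))| +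
      s3 * |32 * ((tn3 : ℝ) + oK) - (512 * A * u3 + 32 * (tp3 + k3))| +
      (r0 * |65536 * (K : ℝ) + (32 * wn0 + 2 * oQ) -
          ((512 * K + 2 * C) * e0 + (32 * wp0 + 2 * q0))| +
        r1 * |65536 * (K : ℝ) + (32 * wn1 + 2 * oQ) -
          ((512 * K + 2 * C) * e1 + (32 * wp1 + 2 * q1))| +
        r2 * |65536 * (K : ℝ) + (32 * wn2 + 2 * oQ) -
          ((512 * K + 2 * C) * e2 + (32 * wp2 + 2 * q2))| +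
        r3 * |65536 * (K : ℝ) + (32 * wn3 + 2 * oQ) -
          ((512 * K + 2 * C) * e3 + (32 * wp3 + 2 * q3))|) +
      (256 * A * ((s0 : ℝ) * s0 + s1 * s1 + s2 * s2 + s3 * s3) +
        (C + 256 * K) * ((r0 : ℝ) * r0 + r1 * r1 + r2 * r2 + r3 * r3)) +
      32 * ((s0 : ℝ) * (r0 * B0 + r1 * B1 + r2 * B2 + r3 * B3) +
        s1 * (r0 * B1 + r1 * B0 + r2 * B3 + r3 * B2) +
        s2 * (r0 * B2 + r1 * B3 + r2 * B0 + r3 * B1) +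
        s3 * (r0 * B3 + r1 * B2 + r2 * B1 + r3 * B0)) ≤
    K * (2541748224 - 1048576 * u0 + 65536 * ((e0 : ℝ) + e1 + e2 + e3) -
      256 * ((e0 : ℝ) * e0 + e1 * e1 + e2 * e2 + e3 * e3)) + 1073741824 * ((b : ℝ) - ai) -
    (256 * A * ((u0 : ℝ) * u0 + u1 * u1 + u2 * u2 + u3 * u3) +
      C * ((e0 : ℝ) * e0 + e1 * e1 + e2 * e2 + e3 * e3) + kk +
      32 * ((u0 : ℝ) * tp0 + u1 * tp1 + u2 * tp2 + u3 * tp3) -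
      32 * ((u0 : ℝ) * tn0 + u1 * tn1 + u2 * tn2 + u3 * tn3) +
      32 * ((u0 : ℝ) * k0 + u1 * k1 + u2 * k2 + u3 * k3) -
      32 * (oK * ((u0 : ℝ) + u1 + u2 + u3)) +
      2 * ((e0 : ℝ) * q0 + e1 * q1 + e2 * q2 + e3 * q3) -
      2 * (oQ * ((e0 : ℝ) + e1 + e2 + e3))) := by
  unfold fin5 at h
  rw [Nat.ble_eq] at h
  have h2 := (Nat.cast_le (α := ℝ)).2 h
  simp only [s4, dot4, Nat.add_eq, Nat.mul_eq] at h2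
  simp only [Nat.cast_add, Nat.cast_mul, fin_df, Nat.cast_ofNat] at h2
  obtain ⟨a0, ha0⟩ : ∃ a : ℝ, a = |32 * ((tn0 : ℝ) + oK) - (1048576 * K + 512 * A * u0 +
    32 * (tp0 + k0))| := ⟨_, rfl⟩
  obtain ⟨a1, ha1⟩ : ∃ a : ℝ, a = |32 * ((tn1 : ℝ) + oK) - (512 * A * u1 + 32 * (tp1 + k1))| :=
    ⟨_, rfl⟩
  obtain ⟨a2, ha2⟩ : ∃ a : ℝ, a = |32 * ((tn2 : ℝ) + oK) - (512 * A * u2 + 32 * (tp2 + k2))| :=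
    ⟨_, rfl⟩
  obtain ⟨a3, ha3⟩ : ∃ a : ℝ, a = |32 * ((tn3 : ℝ) + oK) - (512 * A * u3 + 32 * (tp3 + k3))| :=
    ⟨_, rfl⟩
  obtain ⟨c0, hc0⟩ : ∃ a : ℝ, a = |65536 * (K : ℝ) + (32 * wn0 + 2 * oQ) -
          ((512 * K + 2 * C) * e0 + (32 * wp0 + 2 * q0))| := ⟨_, rfl⟩
  obtain ⟨c1, hc1⟩ : ∃ a : ℝ, a = |65536 * (K : ℝ) + (32 * wn1 + 2 * oQ) -
          ((512 * K + 2 * C) * e1 + (32 * wp1 + 2 * q1))| := ⟨_, rfl⟩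
  obtain ⟨c2, hc2⟩ : ∃ a : ℝ, a = |65536 * (K : ℝ) + (32 * wn2 + 2 * oQ) -
          ((512 * K + 2 * C) * e2 + (32 * wp2 + 2 * q2))| := ⟨_, rfl⟩
  obtain ⟨c3, hc3⟩ : ∃ a : ℝ, a = |65536 * (K : ℝ) + (32 * wn3 + 2 * oQ) -
          ((512 * K + 2 * C) * e3 + (32 * wp3 + 2 * q3))| := ⟨_, rfl⟩
  rw [← ha0, ← ha1, ← ha2, ← ha3, ← hc0, ← hc1, ← hc2, ← hc3] at h2
  rw [← ha0, ← ha1, ← ha2, ← ha3, ← hc0, ← hc1, ← hc2, ← hc3]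
  clear ha0 ha1 ha2 ha3 hc0 hc1 hc2 hc3 h
  linarith

theorem fin_main (K b ai A C kk e0 e1 e2 e3 u0 u1 u2 u3 r0 r1 r2 r3 s0 s1 s2 s3
    d0 d1 d2 d3 k0 k1 k2 k3 q0 q1 q2 q3 oD : ℕ)
    (h : fin4 K b ai A C kk e0 e1 e2 e3 u0 u1 u2 u3 r0 r1 r2 r3 s0 s1 s2 s3
      d0 d1 d2 d3 k0 k1 k2 k3 q0 q1 q2 q3 oD = true)
    (D0 D1 D2 D3 f0 f1 f2 f3 g0 g1 g2 g3 x0 x1 x2 x3 y0 y1 y2 y3 : ℝ)
    (hd0 : (d0 : ℝ) = D0 + oD) (hd1 : (d1 : ℝ) = D1 + oD) (hd2 : (d2 : ℝ) = D2 + oD)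
    (hd3 : (d3 : ℝ) = D3 + oD)
    (hk0 : (k0 : ℝ) = f0 + 262144 * A) (hk1 : (k1 : ℝ) = f1 + 262144 * A)
    (hk2 : (k2 : ℝ) = f2 + 262144 * A) (hk3 : (k3 : ℝ) = f3 + 262144 * A)
    (hq0 : (q0 : ℝ) = g0 + 67108864 * A) (hq1 : (q1 : ℝ) = g1 + 67108864 * A)
    (hq2 : (q2 : ℝ) = g2 + 67108864 * A) (hq3 : (q3 : ℝ) = g3 + 67108864 * A)
    (hx0 : |x0| ≤ r0) (hx1 : |x1| ≤ r1) (hx2 : |x2| ≤ r2) (hx3 : |x3| ≤ r3)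
    (hy0 : |y0| ≤ s0) (hy1 : |y1| ≤ s1) (hy2 : |y2| ≤ s2) (hy3 : |y3| ≤ s3) :
    0 ≤ finG K b ai A C kk (e0 + x0) (e1 + x1) (e2 + x2) (e3 + x3) (u0 + y0) (u1 + y1)
      (u2 + y2) (u3 + y3) D0 D1 D2 D3 f0 f1 f2 f3 g0 g1 g2 g3 := by
  have h5 := fin_real5 _ _ _ _ _ _ _ _ _ _ _ _ _ _ _ _ _ _ _ _ _ _ _ _ _ _ _ _ _ _ _ _ _ _ _ _
    _ _ _ _ _ _ _ _ _ _ _ _ _ _ _ _ h
  obtain ⟨p0, p1, p2, p3⟩ := fin_cp e0 e1 e2 e3 d0 d1 d2 d3 oD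
  obtain ⟨m0, m1, m2, m3⟩ := fin_mp u0 u1 u2 u3 d0 d1 d2 d3 oD
  have j0 : (d0 : ℝ) - oD = D0 := by rw [hd0]; ring
  have j1 : (d1 : ℝ) - oD = D1 := by rw [hd1]; ring
  have j2 : (d2 : ℝ) - oD = D2 := by rw [hd2]; ring
  have j3 : (d3 : ℝ) - oD = D3 := by rw [hd3]; ring
  rw [j0, j1, j2, j3] at p0 p1 p2 p3 m0 m1 m2 m3
  have oK : ((Nat.mul 262144 A : ℕ) : ℝ) = 262144 * A := by
    rw [Nat.mul_eq]; push_cast; ring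
  have oQ : ((Nat.mul 67108864 A : ℕ) : ℝ) = 67108864 * A := by
    rw [Nat.mul_eq]; push_cast; ring
  rw [p0, p1, p2, p3, m0, m1, m2, m3, oK, oQ, hk0, hk1, hk2, hk3, hq0, hq1, hq2, hq3, fin_df,
    fin_df, fin_df, fin_df, j0, j1, j2, j3] at h5
  refine fin_core K b ai A C kk e0 e1 e2 e3 u0 u1 u2 u3 r0 r1 r2 r3 s0 s1 s2 s3 D0 D1 D2 D3
    f0 f1 f2 f3 g0 g1 g2 g3 x0 x1 x2 x3 y0 y1 y2 y3 _ _ _ _ _ _ _ _ |D0| |D1| |D2| |D3|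
    (Nat.cast_nonneg _) (by positivity) hx0 hx1 hx2 hx3 hy0 hy1 hy2 hy3 le_rfl le_rfl le_rfl le_rfl
    le_rfl le_rfl le_rfl le_rfl le_rfl le_rfl le_rfl le_rfl ?_
  refine le_trans (le_of_eq ?_) (le_trans h5 (le_of_eq ?_))
  · ring_nf
  · unfold finG
    ring

theorem st_FIN : ST_FIN := by
  intro K b ai A C kk d0 d1 d2 d3 k0 k1 k2 k3 q0 q1 q2 q3 l0 h0 l1 h1 l2 h2 l3 h3 l4 h4 l5 h5
    l6 h6 l7 h7 g0 g1 g2 g3 g4 g5 g6 g7 hfin e u hL D k q hD hk hq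
  obtain ⟨a0, a1, a2, a3, a4, a5, a6, a7⟩ := hL
  have key : ∀ (l h : ℕ) (x : ℝ), l ≤ h → (l : ℝ) ≤ x ∧ x ≤ h →
      |2 * x - (l + h)| ≤ ((Nat.sub h l : ℕ) : ℝ) ∧
      ((Nat.add l h : ℕ) : ℝ) + (2 * x - (l + h)) = 2 * x := by
    intro l h x hlh hx
    constructor
    · have : ((Nat.sub h l : ℕ) : ℝ) = h - l := by
        show ((h - l : ℕ) : ℝ) = h - l
        exact Nat.cast_sub hlh
      rw [this, abs_le]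
      constructor <;> linarith [hx.1, hx.2]
    · have : ((Nat.add l h : ℕ) : ℝ) = l + h := by
        show ((l + h : ℕ) : ℝ) = l + h
        exact Nat.cast_add l h
      rw [this]
      ring
  have hoD : ((Nat.mul 64 A : ℕ) : ℝ) = 64 * A := by
    rw [Nat.mul_eq]; push_cast; ring
  have hm := fin_main K b ai A C kk _ _ _ _ _ _ _ _ _ _ _ _ _ _ _ _ d0 d1 d2 d3 k0 k1 k2 k3
    q0 q1 q2 q3 _ hfin (D 0) (D 1) (D 2) (D 3) (k 0) (k 1) (k 2) (k 3) (q 0) (q 1) (q 2) (q 3)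
    (2 * e 0 - (l0 + h0)) (2 * e 1 - (l1 + h1)) (2 * e 2 - (l2 + h2)) (2 * e 3 - (l3 + h3))
    (2 * u 0 - (l4 + h4)) (2 * u 1 - (l5 + h5)) (2 * u 2 - (l6 + h6)) (2 * u 3 - (l7 + h7))
    (by rw [hoD]; exact hD.1) (by rw [hoD]; exact hD.2.1) (by rw [hoD]; exact hD.2.2.1)
    (by rw [hoD]; exact hD.2.2.2)
    hk.1 hk.2.1 hk.2.2.1 hk.2.2.2 hq.1 hq.2.1 hq.2.2.1 hq.2.2.2
    (key l0 h0 (e 0) g0 a0).1 (key l1 h1 (e 1) g1 a1).1 (key l2 h2 (e 2) g2 a2).1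
    (key l3 h3 (e 3) g3 a3).1 (key l4 h4 (u 0) g4 a4).1 (key l5 h5 (u 1) g5 a5).1
    (key l6 h6 (u 2) g6 a6).1 (key l7 h7 (u 3) g7 a7).1
  rw [(key l0 h0 (e 0) g0 a0).2, (key l1 h1 (e 1) g1 a1).2, (key l2 h2 (e 2) g2 a2).2,
    (key l3 h3 (e 3) g3 a3).2, (key l4 h4 (u 0) g4 a4).2, (key l5 h5 (u 1) g5 a5).2,
    (key l6 h6 (u 2) g6 a6).2, (key l7 h7 (u 3) g7 a7).2] at hm
  have m0 : ms e D 0 = e 0 * D 0 + e 1 * D 1 + e 2 * D 2 + e 3 * D 3 := rfl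
  have m1 : ms e D 1 = -(e 0 * D 1) + e 1 * D 0 - e 2 * D 3 + e 3 * D 2 := rfl
  have m2 : ms e D 2 = -(e 0 * D 2) + e 2 * D 0 - e 3 * D 1 + e 1 * D 3 := rfl
  have m3 : ms e D 3 = -(e 0 * D 3) + e 3 * D 0 - e 1 * D 2 + e 2 * D 1 := rfl
  rw [← sub_nonneg]
  refine le_trans hm (le_of_eq ?_)
  unfold finG HH dt
  rw [m0, m1, m2, m3]
  ring

end Pool.Agent.Helper10.Qc
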